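import Pool.Agent.Lib.MP_0baf06_lc.Final

/-!
In ZFC there is a pure state of `B(H)` which is not multiplicative on any atomic masa
(Anderson's conjecture fails); on the masas on which it is multiplicative, if any, it vanishes on
the atomic part.
-/

open Pool.Agent.Lib.MP_0baf06_lc

namespace Pool.Agent.Results.MP_0baf06_lc.NotAtomicallyDiagonal

theorem result (H : Type*) [NormedAddCommGroup H] [InnerProductSpace ℂ H] [CompleteSpace H]
    [TopologicalSpace.SeparableSpace H] (hH : ¬ FiniteDimensional ℂ H) :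
    ∃ φ ∈ Set.extremePoints ℝ {ψ : (H →L[ℂ] H) →ₗ[ℂ] ℂ |
        ψ 1 = 1 ∧ ∀ a : H →L[ℂ] H, a.IsPositive → 0 ≤ (ψ a).re ∧ (ψ a).im = 0},
      (∀ e : ℕ → H, Orthonormal ℂ e → (Submodule.span ℂ (Set.range e)).topologicalClosure = ⊤ →
        ∃ S : Set ℕ,
          1 / 4 ≤ (φ (Submodule.span ℂ (e '' S)).topologicalClosure.starProjection).re ∧
          (φ (Submodule.span ℂ (e '' S)).topologicalClosure.starProjection).re ≤ 3 / 4) ∧
      ∀ A : StarSubalgebra ℂ (H →L[ℂ] H),
        Maximal (fun B : StarSubalgebra ℂ (H →L[ℂ] H) => ∀ a ∈ B, ∀ b ∈ B, a * b = b * a) A →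
        (∀ a ∈ A, ∀ b ∈ A, φ (a * b) = φ a * φ b) →
        φ (Submodule.span ℂ
            {x : H | ∀ a ∈ A, ∃ c : ℂ, a x = c • x}).topologicalClosure.starProjection = 0 ∧
        (Submodule.span ℂ
            {x : H | ∀ a ∈ A, ∃ c : ℂ, a x = c • x}).topologicalClosure ≠ ⊤ := by
  obtain ⟨φ, hφ, hbal⟩ := exists_pure_balanced hH
  refine ⟨φ, ?_, hbal, fun A hA hm => ?_⟩
  · rw [mem_extremePoints]
    refine ⟨hφ.1, fun φ₁ h₁ φ₂ h₂ hseg => ?_⟩
    obtain ⟨s, t, hs, ht, hst, heq⟩ := hseg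
    have ht' : t = 1 - s := by linarith
    refine hφ.2 φ₁ φ₂ h₁ h₂ s hs (by linarith) ?_
    rw [← heq, ht']
    apply LinearMap.ext
    intro a
    simp
  · have h := masa_part hH hφ.1 hbal A ⟨hA.prop, fun B hAB hB => hA.le_of_ge hB hAB⟩ hm
    refine ⟨h, fun htop => ?_⟩
    have h1 : spanProj (eigenvectors A) = 1 := by
      ext x
      refine Submodule.starProjection_eq_self_iff.2 ?_
      have h2 : (Submodule.span ℂ (eigenvectors A)).topologicalClosure = ⊤ := htop
      rw [h2]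
      exact Submodule.mem_top
    rw [h1, hφ.1.1] at h
    exact one_ne_zero h

end Pool.Agent.Results.MP_0baf06_lc.NotAtomicallyDiagonal
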